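import Mathlib
import Pool.Agent.Q203.BD.Main

/-!
# Degrees generated by countably many Borel functions, and Turing determinacy for Borel sets

`Tm ι` are the terms built from the identity, basic Borel functions `b i` and pairing. They
generate a countable Borel quasi-order `le`, if the basic functions are general enough, invariant
cofinal Borel sets contain a cone.
-/

set_option autoImplicit false

namespace Q203.TD

open Q203.BD

/-- the Baire space -/
abbrev NN : Type := ℕ → ℕ

/-- pairing -/
def jn (z w : NN) : NN := fun n => if Even n then z (n / 2) else w (n / 2)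

/-- left part -/
def lf (z : NN) : NN := fun n => z (2 * n)

/-- right part -/
def rt (z : NN) : NN := fun n => z (2 * n + 1)

@[simp] lemma lf_jn (z w : NN) : lf (jn z w) = z := by
  funext n
  simp [lf, jn]

@[simp] lemma rt_jn (z w : NN) : rt (jn z w) = w := by
  funext n
  have h : ¬ Even (2 * n + 1) := by grind
  simp only [rt, jn, if_neg h]
  congr 1
  omega

lemma measurable_lf : Measurable lf := measurable_pi_lambda _ fun _ => measurable_pi_apply _

lemma measurable_rt : Measurable rt := measurable_pi_lambda _ fun _ => measurable_pi_apply _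

lemma measurable_jn {α : Type*} [MeasurableSpace α] {f g : α → NN} (hf : Measurable f)
    (hg : Measurable g) : Measurable fun a => jn (f a) (g a) := by
  refine measurable_pi_lambda _ fun n => ?_
  unfold jn
  by_cases h : Even n
  · simp only [if_pos h]; exact (measurable_pi_apply _).comp hf
  · simp only [if_neg h]; exact (measurable_pi_apply _).comp hg

/-- the discrete sigma-algebra on finite sequences -/
local instance instMeasList : MeasurableSpace (List ℕ) := ⊤

/-- code of a finite sequence -/
def enc (l : List ℕ) : ℕ := Encodable.encode l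

/-- the history of the play in which the moves of the player of parity `p` are given by the
strategy coded in the left part, and the other moves by the right part -/
def hs (p : Bool) (q : NN) : ℕ → List ℕ
  | 0 => []
  | n + 1 => (if (Even n ↔ p = true) then q (2 * enc (hs p q n)) else q (2 * (n / 2) + 1)) ::
      hs p q n

/-- the play -/
def pl (p : Bool) (q : NN) : NN := fun n =>
  if (Even n ↔ p = true) then q (2 * enc (hs p q n)) else q (2 * (n / 2) + 1)

lemma hist_pl (p : Bool) (q : NN) (n : ℕ) : hist (pl p q) n = hs p q n := by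
  induction n with
  | zero => rfl
  | succ n ih => rw [hist_succ, ih]; rfl

lemma measurable_hs (p : Bool) (n : ℕ) : Measurable fun q : NN => hs p q n := by
  induction n with
  | zero => exact measurable_const
  | succ n ih =>
    have h1 : Measurable fun x : List ℕ × NN =>
        (if (Even n ↔ p = true) then x.2 (2 * enc x.1) else x.2 (2 * (n / 2) + 1)) :: x.1 := by
      refine measurable_from_prod_countable_right fun l => ?_
      by_cases h : Even n ↔ p = true
      · simp only [if_pos h]
        exact (measurable_from_top (f := fun a : ℕ => a :: l)).comp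
          (measurable_pi_apply (2 * enc l))
      · simp only [if_neg h]
        exact (measurable_from_top (f := fun a : ℕ => a :: l)).comp
          (measurable_pi_apply (2 * (n / 2) + 1))
    exact h1.comp (ih.prodMk measurable_id)

lemma measurable_pl (p : Bool) : Measurable (pl p) := by
  refine measurable_pi_lambda _ fun n => ?_
  have h1 : Measurable fun x : List ℕ × NN =>
      (if (Even n ↔ p = true) then x.2 (2 * enc x.1) else x.2 (2 * (n / 2) + 1)) := by
    refine measurable_from_prod_countable_right fun l => ?_
    by_cases h : Even n ↔ p = true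
    · simp only [if_pos h]
      exact measurable_pi_apply (2 * enc l)
    · simp only [if_neg h]
      exact measurable_pi_apply (2 * (n / 2) + 1)
  exact h1.comp ((measurable_hs p n).prodMk measurable_id)

/-- terms -/
inductive Tm (ι : Type) : Type
  | var : Tm ι
  | bas : ι → Tm ι → Tm ι
  | pair : Tm ι → Tm ι → Tm ι
  deriving Encodable

instance {ι : Type} [Countable ι] : Countable (Tm ι) := by
  have := Encodable.ofCountable ι
  infer_instance

variable {ι : Type} (b : ι → NN → NN)

/-- the function denoted by a term -/
def ev : Tm ι → NN → NN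
  | Tm.var, z => z
  | Tm.bas i t, z => b i (ev t z)
  | Tm.pair s t, z => jn (ev s z) (ev t z)

/-- substitution -/
def sub (s : Tm ι) : Tm ι → Tm ι
  | Tm.var => s
  | Tm.bas i t => Tm.bas i (sub s t)
  | Tm.pair t t' => Tm.pair (sub s t) (sub s t')

lemma ev_sub (s t : Tm ι) (z : NN) : ev b (sub s t) z = ev b t (ev b s z) := by
  induction t with
  | var => rfl
  | bas i t ih => simp only [sub, ev, ih]
  | pair t t' ih ih' => simp only [sub, ev, ih, ih']

variable {b} in
lemma measurable_ev (hb : ∀ i, Measurable (b i)) (t : Tm ι) : Measurable (ev b t) := by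
  induction t with
  | var => exact measurable_id
  | bas i t ih => exact (hb i).comp ih
  | pair t t' ih ih' => exact measurable_jn ih ih'

/-- the quasi-order of reducibility -/
def le (z w : NN) : Prop := ∃ t : Tm ι, ev b t w = z

/-- the equivalence -/
def eqv (z w : NN) : Prop := le b z w ∧ le b w z

variable {b}

lemma le_refl (z : NN) : le b z z := ⟨Tm.var, rfl⟩

lemma le_trans {z w v : NN} (h1 : le b z w) (h2 : le b w v) : le b z v := by
  obtain ⟨t, rfl⟩ := h1
  obtain ⟨s, rfl⟩ := h2
  exact ⟨sub s t, ev_sub b s t v⟩

lemma le_bas (i : ι) (z : NN) : le b (b i z) z := ⟨Tm.bas i Tm.var, rfl⟩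

lemma jn_le {z w v : NN} (h1 : le b z v) (h2 : le b w v) : le b (jn z w) v := by
  obtain ⟨t, rfl⟩ := h1
  obtain ⟨s, rfl⟩ := h2
  exact ⟨Tm.pair t s, rfl⟩

lemma eqv_equivalence : Equivalence (eqv b) where
  refl z := ⟨le_refl z, le_refl z⟩
  symm h := ⟨h.2, h.1⟩
  trans h h' := ⟨le_trans h.1 h'.1, le_trans h'.2 h.2⟩

lemma eqv_countable [Countable ι] (z : NN) : {w | eqv b z w}.Countable := by
  refine (Set.countable_range (fun t : Tm ι => ev b t z)).mono ?_
  rintro w ⟨_, t, ht⟩
  exact ⟨t, ht⟩

lemma eqv_measurable [Countable ι] (hb : ∀ i, Measurable (b i)) :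
    MeasurableSet {p : NN × NN | eqv b p.1 p.2} := by
  have : {p : NN × NN | eqv b p.1 p.2} =
      ⋃ s : Tm ι, ⋃ t : Tm ι, {p | ev b s p.2 = p.1} ∩ {p | ev b t p.1 = p.2} := by
    ext p
    simp only [Set.mem_ofPred_eq, Set.mem_iUnion, Set.mem_inter_iff, eqv, le]
    constructor
    · rintro ⟨⟨s, hs⟩, ⟨t, ht⟩⟩; exact ⟨s, t, hs, ht⟩
    · rintro ⟨s, t, hs, ht⟩; exact ⟨⟨s, hs⟩, ⟨t, ht⟩⟩
  rw [this]
  refine MeasurableSet.iUnion fun s => MeasurableSet.iUnion fun t => ?_
  exact (measurableSet_eq_fun ((measurable_ev hb s).comp measurable_snd) measurable_fst).inter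
    (measurableSet_eq_fun ((measurable_ev hb t).comp measurable_fst) measurable_snd)

/-- **Determinacy of degrees.** If the basic functions contain the projections and the plays
against coded strategies, then every invariant cofinal Borel set contains a cone. -/
theorem cone {L R P Q : ι} (hL : b L = lf) (hR : b R = rt) (hP : b P = pl true)
    (hQ : b Q = pl false) {T : Set NN} (hT : MeasurableSet T)
    (hinv : ∀ z w, eqv b z w → (z ∈ T ↔ w ∈ T)) (hcof : ∀ z, ∃ w ∈ T, le b z w) :
    ∃ c, ∀ v, le b c v → v ∈ T := by
  have hTb : @MeasurableSet (ℕ → ℕ) (borel (ℕ → ℕ)) T := by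
    rw [← BorelSpace.measurable_eq (α := ℕ → ℕ)]; exact hT
  have code : ∀ σ : List ℕ → ℕ, ∃ c : NN, ∀ l, c (enc l) = σ l := by
    intro σ
    refine ⟨fun n => σ ((Encodable.decode (α := List ℕ) n).getD []), fun l => ?_⟩
    simp [enc]
  rcases borel_determinacy hTb with ⟨σ, hσ⟩ | ⟨τ, hτ⟩
  · obtain ⟨c, hc⟩ := code σ
    refine ⟨c, fun v hv => ?_⟩
    set z := pl true (jn c v) with hz
    have hzT : z ∈ T := by
      apply hσ
      intro n hn
      rw [hz, hist_pl]
      have : (Even n ↔ true = true) := by simp [hn]
      rw [pl, if_pos this]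
      have h2 : (jn c v) (2 * enc (hs true (jn c v) n)) = c (enc (hs true (jn c v) n)) :=
        congrFun (lf_jn c v) _
      rw [h2, hc]
    refine (hinv z v ⟨?_, ?_⟩).1 hzT
    · rw [hz, ← hP]
      exact le_trans (le_bas P _) (jn_le hv (le_refl v))
    · have : rt z = v := by
        funext n
        have hne : ¬ (Even (2 * n + 1) ↔ true = true) := by
          have : ¬ Even (2 * n + 1) := by grind
          simp [this]
        have h3 : (jn c v) (2 * n + 1) = v n := congrFun (rt_jn c v) n
        rw [hz, rt, pl, if_neg hne, show (2 * n + 1) / 2 = n by omega, h3]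
      rw [← this, ← hR]
      exact le_bas R _
  · exfalso
    obtain ⟨c, hc⟩ := code τ
    obtain ⟨w, hwT, hcw⟩ := hcof c
    set z := pl false (jn c w) with hz
    have hzT : z ∉ T := by
      apply hτ
      intro n hn
      rw [hz, hist_pl]
      have : (Even n ↔ false = true) := by simp [hn]
      rw [pl, if_pos this]
      have h2 : (jn c w) (2 * enc (hs false (jn c w) n)) = c (enc (hs false (jn c w) n)) :=
        congrFun (lf_jn c w) _
      rw [h2, hc]
    refine hzT ((hinv z w ⟨?_, ?_⟩).2 hwT)
    · rw [hz, ← hQ]
      exact le_trans (le_bas Q _) (jn_le hcw (le_refl w))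
    · have : lf z = w := by
        funext n
        have hne : ¬ (Even (2 * n) ↔ false = true) := by
          have : Even (2 * n) := by grind
          simp [this]
        have h3 : (jn c w) (2 * n + 1) = w n := congrFun (rt_jn c w) n
        rw [hz, lf, pl, if_neg hne, show (2 * n) / 2 = n by omega, h3]
      rw [← this, ← hL]
      exact le_bas L _

end Q203.TD
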