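import Mathlib
import Pool.Agent.H84R8.Mean
import Pool.Agent.H84R8.Bern

/-!
# The Bernoulli shift of the free group on two generators is not hyperfinite
-/

set_option autoImplicit false

namespace Q203.TD

open Pool.Agent.H84R8 MeasureTheory

/-- the free group on two generators -/
abbrev Fr : Type := FreeGroup (Fin 2)

lemma mean_mono {G : Type*} [Group G] {m : Set G → ℝ} (hm : IsInvMean m) {A B : Set G}
    (h : A ⊆ B) : m A ≤ m B := by
  have h1 := hm.union A (B \ A) Set.disjoint_sdiff_right
  rw [Set.union_sdiff_cancel h] at h1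
  have h2 := hm.nonneg (B \ A)
  linarith

lemma mean_letter {m : Set Fr → ℝ} (hm : IsInvMean m) (i : Fin 2) :
    1 ≤ m (FreeGroup.startsWith (i, true)) + m (FreeGroup.startsWith (i, false)) := by
  have h1 : (FreeGroup.startsWith (i, true))ᶜ ⊆
      (fun a => (FreeGroup.mk [(i, false)])⁻¹ * a) '' FreeGroup.startsWith (i, false) := by
    intro g hg
    refine ⟨FreeGroup.mk [(i, false)] * g, ?_, inv_mul_cancel_left _ _⟩
    exact FreeGroup.startsWith_mk_mul (w := (i, false)) g hg
  have h2 := mean_mono hm h1
  rw [hm.inv] at h2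
  have h3 := hm.union (FreeGroup.startsWith (i, true)) (FreeGroup.startsWith (i, true))ᶜ
    disjoint_compl_right
  rw [Set.union_compl_self, hm.univ] at h3
  linarith

theorem free_not_amenable : ¬ ∃ m : Set Fr → ℝ, IsInvMean m := by
  rintro ⟨m, hm⟩
  have h0 := mean_letter hm 0
  have h1 := mean_letter hm 1
  have d : ∀ w w' : Fin 2 × Bool, w ≠ w' →
      Disjoint (FreeGroup.startsWith w) (FreeGroup.startsWith w') :=
    fun w w' h => FreeGroup.startsWith.disjoint_iff_ne.2 h
  have e1 := hm.union _ _ (d (0, true) (0, false) (by simp))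
  have e2 := hm.union _ _ (d (1, true) (1, false) (by simp))
  have e3 := hm.union (FreeGroup.startsWith ((0 : Fin 2), true) ∪ FreeGroup.startsWith (0, false))
    (FreeGroup.startsWith (1, true) ∪ FreeGroup.startsWith (1, false)) (by
      rw [Set.disjoint_union_left, Set.disjoint_union_right, Set.disjoint_union_right]
      exact ⟨⟨d _ _ (by simp), d _ _ (by simp)⟩, ⟨d _ _ (by simp), d _ _ (by simp)⟩⟩)
  have e4 := mean_mono hm (Set.subset_univ ((FreeGroup.startsWith ((0 : Fin 2), true) ∪
    FreeGroup.startsWith (0, false)) ∪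
    (FreeGroup.startsWith (1, true) ∪ FreeGroup.startsWith (1, false))))
  rw [hm.univ] at e4
  linarith

/-- the space of the Bernoulli shift -/
abbrev Bs : Type := Fr → ZMod 2

/-- the shift -/
def sh (g : Fr) (x : Bs) : Bs := fun d => x (g⁻¹ * d)

lemma sh_one (x : Bs) : sh 1 x = x := by funext d; simp [sh]

lemma sh_mul (g h : Fr) (x : Bs) : sh (g * h) x = sh g (sh h x) := by
  funext d; simp [sh, mul_assoc]

lemma sh_inv (g : Fr) (x : Bs) : sh g⁻¹ (sh g x) = x := by
  rw [← sh_mul]; simp [sh_one]

lemma measurable_sh (g : Fr) : Measurable (sh g) :=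
  measurable_pi_lambda _ fun _ => measurable_pi_apply _

/-- the shift as an action -/
@[reducible] def shAct : MulAction Fr Bs where
  smul := sh
  one_smul := sh_one
  mul_smul := sh_mul

lemma free_ae : ∀ᵐ x ∂(bern Fr), ∀ g : Fr, g ≠ 1 → sh g x ≠ x := by
  rw [ae_all_iff]
  intro g
  by_cases hg : g = 1
  · exact Filter.Eventually.of_forall fun x h => (h hg).elim
  · have hinj : Function.Injective fun n : ℕ => (Equiv.mulLeft g⁻¹)^[n] (1 : Fr) := by
      have h1 : ∀ n : ℕ, (Equiv.mulLeft g⁻¹)^[n] (1 : Fr) = (g⁻¹) ^ n := by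
        intro n
        induction n with
        | zero => simp
        | succ n ih => rw [Function.iterate_succ_apply', ih]; simp [pow_succ']
      intro a b hab
      simp only [h1] at hab
      exact injective_pow_iff_not_isOfFinOrder.2
        (not_isOfFinOrder_of_isMulTorsionFree (inv_ne_one.2 hg)) hab
    have h2 := bern_null (Equiv.mulLeft g⁻¹) (1 : Fr) hinj
    have h3 : ∀ᵐ x ∂(bern Fr), x ∉ {ε : Fr → ZMod 2 | ∀ d, ε ((Equiv.mulLeft g⁻¹) d) = ε d} :=
      measure_eq_zero_iff_ae_notMem.1 h2
    filter_upwards [h3] with x hx _ hfix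
    exact hx (fun d => congrFun hfix d)

/-- There is no increasing sequence of finite Borel equivalence relations exhausting the orbit
equivalence relation of the shift. -/
theorem no_hyperfinite (R : ℕ → Bs → Bs → Prop)
    (hR : ∀ n, MeasurableSet {p : Bs × Bs | R n p.1 p.2})
    (heq : ∀ n, Equivalence (R n))
    (hmono : ∀ n x y, R n x y → R (n + 1) x y)
    (hfin : ∀ n x, {y | R n x y}.Finite)
    (hun : ∀ x g, ∃ n, R n x (sh g x)) : False := by
  let _ := shAct
  refine free_not_amenable (exists_mean (G := Fr) (X := Bs) R (bern Fr) (fun g => ?_) free_ae hR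
    (fun n => (heq n).refl) (fun n x y h => (heq n).symm h) (fun n x y z h h' =>
    (heq n).trans h h') hmono hfin (Filter.Eventually.of_forall fun x g => hun x g))
  exact bern_mp (Equiv.mulLeft g⁻¹)

end Q203.TD
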