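import Mathlib
import Pool.Agent.Q203.TD.Free
import Pool.Agent.Q203.TD.Cone

/-!
# A countable Borel equivalence relation that is not hyperfinite on Ramsey co-null Borel sets
-/

set_option autoImplicit false

namespace Q203.TD

open MeasureTheory

/-- infinite subsets of `ℕ` -/
abbrev YY : Type := {x : ℕ → Bool // {n | x n = true}.Infinite}

lemma meas_bit (n : ℕ) : MeasurableSet {x : ℕ → Bool | x n = true} :=
  measurableSet_eq_fun (measurable_pi_apply n) measurable_const

lemma measurableSet_inf : MeasurableSet {x : ℕ → Bool | {n | x n = true}.Infinite} := by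
  have : {x : ℕ → Bool | {n | x n = true}.Infinite} =
      ⋂ m : ℕ, ⋃ n : ℕ, {x : ℕ → Bool | m < n ∧ x n = true} := by
    ext x
    simp only [Set.mem_ofPred_eq, Set.mem_iInter, Set.mem_iUnion]
    constructor
    · intro h m
      obtain ⟨n, hn, hmn⟩ := h.exists_gt m
      exact ⟨n, hmn, hn⟩
    · intro h
      refine Set.infinite_of_forall_exists_gt fun m => ?_
      obtain ⟨n, h1, h2⟩ := h m
      exact ⟨n, h2, h1⟩
  rw [this]
  refine MeasurableSet.iInter fun m => MeasurableSet.iUnion fun n => ?_
  by_cases h : m < n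
  · simp only [h, true_and]
    exact meas_bit n
  · simp [h]

instance instSBY : StandardBorelSpace YY := measurableSet_inf.standardBorel

lemma not_countable_bool : ¬ Countable (ℕ → Bool) := by
  intro h
  obtain ⟨f, hf⟩ := exists_surjective_nat (ℕ → Bool)
  obtain ⟨n, hn⟩ := hf (fun n => ! f n n)
  have := congrFun hn n
  simp at this

lemma not_countable_NN : ¬ Countable NN := by
  intro h
  apply not_countable_bool
  have : Function.Injective (fun (x : ℕ → Bool) (n : ℕ) => (x n).toNat) := by
    intro x y hxy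
    funext n
    have h1 := congrFun hxy n
    simp only at h1
    cases hx : x n <;> cases hy : y n <;> simp_all
  exact this.countable

lemma not_countable_YY : ¬ Countable YY := by
  intro h
  apply not_countable_bool
  have hinf : ∀ x : ℕ → Bool,
      {n | (if Even n then true else x (n / 2)) = true}.Infinite := by
    intro x
    refine Set.infinite_of_forall_exists_gt fun m => ⟨2 * (m + 1), ?_, by omega⟩
    simp
  have : Function.Injective (fun (x : ℕ → Bool) =>
      (⟨fun n => if Even n then true else x (n / 2), hinf x⟩ : YY)) := by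
    intro x y hxy
    funext n
    have h1 := congrFun (congrArg Subtype.val hxy) (2 * n + 1)
    have h2 : ¬ Even (2 * n + 1) := by grind
    simp only [if_neg h2] at h1
    rwa [show (2 * n + 1) / 2 = n by omega] at h1
  exact this.countable

/-- a Borel isomorphism -/
noncomputable def iso : NN ≃ᵐ YY :=
  PolishSpace.measurableEquivOfNotCountable not_countable_NN not_countable_YY

/-- the set of codes of initial segments -/
def ini (z : NN) (k : ℕ) : List ℕ := (List.range k).map z

lemma length_ini (z : NN) (k : ℕ) : (ini z k).length = k := by simp [ini]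

lemma getD_ini (z : NN) {k n : ℕ} (h : n < k) : (ini z k).getD n 0 = z n := by
  simp [ini, h]

/-- decoded list -/
def dl (m : ℕ) : List ℕ := (Encodable.decode (α := List ℕ) m).getD []

lemma dl_enc (l : List ℕ) : dl (enc l) = l := by simp [dl, enc]

open Classical in
/-- the decoding function -/
noncomputable def dec (x : ℕ → Bool) : NN := fun n =>
  (dl (Nat.find (p := fun m => (x m = true ∧ n < (dl m).length) ∨
    ∀ i, ¬ (x i = true ∧ n < (dl i).length)) (by
      by_cases h : ∃ m, x m = true ∧ n < (dl m).length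
      · obtain ⟨m, hm⟩ := h
        exact ⟨m, Or.inl hm⟩
      · push Not at h
        exact ⟨0, Or.inr (fun i hi => absurd hi.2 (not_lt.2 (h i hi.1)))⟩))).getD n 0

lemma measurable_dec : Measurable dec := by
  classical
  refine measurable_pi_lambda _ fun n => ?_
  have h1 : ∀ m, MeasurableSet {x : ℕ → Bool | x m = true ∧ n < (dl m).length} := by
    intro m
    by_cases h : n < (dl m).length
    · simp only [h, and_true]
      exact meas_bit m
    · simp [h]
  have h2 : ∀ x : ℕ → Bool, ∃ m, (x m = true ∧ n < (dl m).length) ∨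
      ∀ i, ¬ (x i = true ∧ n < (dl i).length) := by
    intro x
    by_cases h : ∃ m, x m = true ∧ n < (dl m).length
    · obtain ⟨m, hm⟩ := h
      exact ⟨m, Or.inl hm⟩
    · push Not at h
      exact ⟨0, Or.inr (fun i hi => absurd hi.2 (not_lt.2 (h i hi.1)))⟩
  have h3 : Measurable fun x : ℕ → Bool => Nat.find (h2 x) := by
    refine measurable_find h2 fun m => ?_
    refine (h1 m).union ?_
    have : {x : ℕ → Bool | ∀ i, ¬ (x i = true ∧ n < (dl i).length)} =
        ⋂ i, {x : ℕ → Bool | x i = true ∧ n < (dl i).length}ᶜ := by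
      ext x; simp
    have h4 := MeasurableSet.iInter fun i => (h1 i).compl
    rw [← this] at h4
    exact h4
  exact (measurable_from_top (f := fun m : ℕ => (dl m).getD n 0)).comp h3

lemma dec_eq {z : NN} {x : ℕ → Bool} (hx : {n | x n = true}.Infinite)
    (h : ∀ n, x n = true → ∃ k, n = enc (ini z k)) : dec x = z := by
  classical
  funext n
  have hex : ∃ m, x m = true ∧ n < (dl m).length := by
    by_contra hcon
    push Not at hcon
    apply hx
    refine ((Set.finite_Iic n).image (fun k => enc (ini z k))).subset ?_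
    intro m hm
    obtain ⟨k, rfl⟩ := h m hm
    refine ⟨k, ?_, rfl⟩
    have := hcon _ hm
    rwa [dl_enc, length_ini] at this
  have h2 : ∃ m, (x m = true ∧ n < (dl m).length) ∨
      ∀ i, ¬ (x i = true ∧ n < (dl i).length) := by
    obtain ⟨m, hm⟩ := hex
    exact ⟨m, Or.inl hm⟩
  have h3 : dec x n = (dl (Nat.find h2)).getD n 0 := rfl
  have h4 := Nat.find_spec h2
  rw [h3]
  rcases h4 with ⟨h5, h6⟩ | h5
  · obtain ⟨k, hk⟩ := h _ h5
    rw [hk, dl_enc, length_ini] at h6
    rw [hk, dl_enc, getD_ini z h6]
  · obtain ⟨m, hm⟩ := hex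
    exact (h5 m hm).elim

/-- an enumeration of the free group -/
noncomputable def en : ℕ → Fr := (exists_surjective_nat Fr).choose

lemma en_surj : Function.Surjective en := (exists_surjective_nat Fr).choose_spec

/-- coding of the Bernoulli space -/
noncomputable def JJ (x : Bs) : NN := fun n => (x (en n)).val

/-- decoding -/
noncomputable def KK (v : NN) : Bs := fun g => ((v (en_surj g).choose : ℕ) : ZMod 2)

lemma KK_JJ (x : Bs) : KK (JJ x) = x := by
  funext g
  simp only [KK, JJ, (en_surj g).choose_spec]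
  exact ZMod.natCast_zmod_val _

lemma measurable_JJ : Measurable JJ :=
  measurable_pi_lambda _ fun _ =>
    (Measurable.of_discrete (f := fun a : ZMod 2 => a.val)).comp (measurable_pi_apply _)

lemma measurable_KK : Measurable KK :=
  measurable_pi_lambda _ fun _ =>
    (Measurable.of_discrete (f := fun a : ℕ => (a : ZMod 2))).comp (measurable_pi_apply _)

/-- names of the basic functions -/
inductive Ix : Type
  | L | R | P | Q | D
  | A : Fr → Ix

instance : Countable Ix := by
  have h : Function.Injective (fun i : Ix => match i with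
    | Ix.L => (Sum.inl 0 : ℕ ⊕ Fr)
    | Ix.R => Sum.inl 1
    | Ix.P => Sum.inl 2
    | Ix.Q => Sum.inl 3
    | Ix.D => Sum.inl 4
    | Ix.A g => Sum.inr g) := by
    intro i j hij
    cases i <;> cases j <;> simp_all
  exact h.countable

/-- the basic functions -/
noncomputable def bs : Ix → NN → NN
  | Ix.L => lf
  | Ix.R => rt
  | Ix.P => pl true
  | Ix.Q => pl false
  | Ix.D => fun z => dec (iso z).1
  | Ix.A g => fun z => JJ (sh g (KK z))

lemma measurable_bs (i : Ix) : Measurable (bs i) := by
  cases i with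
  | L => exact measurable_lf
  | R => exact measurable_rt
  | P => exact measurable_pl _
  | Q => exact measurable_pl _
  | D => exact measurable_dec.comp (measurable_subtype_coe.comp iso.measurable)
  | A g => exact measurable_JJ.comp ((measurable_sh g).comp measurable_KK)

/-- the equivalence relation -/
def EE (x y : YY) : Prop := eqv bs (iso.symm x) (iso.symm y)

lemma EE_equivalence : Equivalence EE where
  refl _ := eqv_equivalence.refl _
  symm h := eqv_equivalence.symm h
  trans h h' := eqv_equivalence.trans h h'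

lemma EE_measurable : MeasurableSet {p : YY × YY | EE p.1 p.2} := by
  have h := eqv_measurable (b := bs) measurable_bs
  exact ((iso.symm.measurable.comp measurable_fst).prodMk
    (iso.symm.measurable.comp measurable_snd)) h

lemma EE_countable (x : YY) : {y | EE x y}.Countable := by
  have h := eqv_countable (b := bs) (iso.symm x)
  exact h.preimage_of_injOn iso.symm.injective.injOn

/-- The saturation of a Ramsey co-null Borel set contains a cone. -/
theorem exists_cone {B : Set YY} (hB : MeasurableSet B)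
    (hco : ∀ A : Set ℕ, A.Infinite → ∃ A' : Set ℕ, A' ⊆ A ∧ A'.Infinite ∧
      ∀ x : YY, {n | x.1 n = true} ⊆ A' → x ∈ B) :
    ∃ c : NN, ∀ v, le bs c v → ∃ s t : Tm Ix, iso (ev bs s v) ∈ B ∧ ev bs t (ev bs s v) = v := by
  classical
  let T : Set NN := {v | ∃ s t : Tm Ix, iso (ev bs s v) ∈ B ∧ ev bs t (ev bs s v) = v}
  have hT : MeasurableSet T := by
    have : T = ⋃ s : Tm Ix, ⋃ t : Tm Ix, {v | iso (ev bs s v) ∈ B} ∩
        {v | ev bs t (ev bs s v) = v} := by
      ext v; simp [T]
    rw [this]
    refine MeasurableSet.iUnion fun s => MeasurableSet.iUnion fun t => ?_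
    have hs := measurable_ev measurable_bs s
    have ht := measurable_ev measurable_bs t
    exact ((iso.measurable.comp hs) hB).inter (measurableSet_eq_fun (ht.comp hs) measurable_id)
  have hTi : ∀ v, v ∈ T ↔ ∃ w, eqv bs v w ∧ iso w ∈ B := by
    intro v
    constructor
    · rintro ⟨s, t, h1, h2⟩
      exact ⟨ev bs s v, ⟨⟨t, h2⟩, ⟨s, rfl⟩⟩, h1⟩
    · rintro ⟨w, ⟨⟨t, ht⟩, ⟨s, hs⟩⟩, h⟩
      exact ⟨s, t, by rw [hs]; exact h, by rw [hs]; exact ht⟩
  refine cone (b := bs) (T := T) (L := Ix.L) (R := Ix.R) (P := Ix.P) (Q := Ix.Q) rfl rfl rfl rfl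
    hT ?_ ?_
  · intro z w hzw
    rw [hTi, hTi]
    constructor
    · rintro ⟨v, h1, h2⟩
      exact ⟨v, eqv_equivalence.trans (eqv_equivalence.symm hzw) h1, h2⟩
    · rintro ⟨v, h1, h2⟩
      exact ⟨v, eqv_equivalence.trans hzw h1, h2⟩
  · intro z
    have hinj : Function.Injective (fun k => enc (ini z k)) := by
      intro k l h
      have h1 : ini z k = ini z l := Encodable.encode_injective h
      have h2 := congrArg List.length h1
      rwa [length_ini, length_ini] at h2
    obtain ⟨A', hA, hinf, hx⟩ := hco (Set.range (fun k => enc (ini z k)))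
      (Set.infinite_range_of_injective hinj)
    have hset : {n | (decide (n ∈ A')) = true} = A' := by ext n; simp
    let x : YY := ⟨fun n => decide (n ∈ A'), by rw [hset]; exact hinf⟩
    have hxB : x ∈ B := hx x hset.subset
    refine ⟨iso.symm x, (hTi _).2 ⟨iso.symm x, eqv_equivalence.refl _, by simpa using hxB⟩, ?_⟩
    refine ⟨Tm.bas Ix.D Tm.var, ?_⟩
    change dec (iso (iso.symm x)).1 = z
    rw [MeasurableEquiv.apply_symm_apply]
    refine dec_eq x.2 ?_
    intro n hn
    have h1 : n ∈ A' := by simpa [x] using hn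
    obtain ⟨k, hk⟩ := hA h1
    exact ⟨k, hk.symm⟩

/-- The main result. -/
theorem not_hyperfinite {B : Set YY} (hB : MeasurableSet B)
    (hco : ∀ A : Set ℕ, A.Infinite → ∃ A' : Set ℕ, A' ⊆ A ∧ A'.Infinite ∧
      ∀ x : YY, {n | x.1 n = true} ⊆ A' → x ∈ B)
    {F : ℕ → YY → YY → Prop} (hF : ∀ n, Equivalence (F n))
    (hFm : ∀ n, MeasurableSet {p : YY × YY | F n p.1 p.2})
    (hFf : ∀ n x, {y | F n x y}.Finite)
    (hFi : ∀ n x y, F n x y → F (n + 1) x y)
    (hFE : ∀ x ∈ B, ∀ y ∈ B, (EE x y ↔ ∃ n, F n x y)) : False := by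
  classical
  obtain ⟨c, hc⟩ := exists_cone hB hco
  have : Nonempty (Tm Ix) := ⟨Tm.var⟩
  obtain ⟨tm, htm⟩ := exists_surjective_nat (Tm Ix × Tm Ix)
  -- the points of the cone coding the Bernoulli space
  let p : Bs → NN := fun x => jn (JJ x) c
  have hpm : Measurable p := measurable_jn measurable_JJ measurable_const
  have hpi : Function.Injective p := by
    intro x y hxy
    have h1 : JJ x = JJ y := by
      have := congrArg lf hxy
      simpa [p] using this
    rw [← KK_JJ x, ← KK_JJ y, h1]
  have hpc : ∀ x, le bs c (p x) := fun x => ⟨Tm.bas Ix.R Tm.var, by simp [ev, bs, p]⟩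
  have hpe : ∀ x g, le bs (p (sh g x)) (p x) := by
    intro x g
    refine ⟨Tm.pair (Tm.bas (Ix.A g) (Tm.bas Ix.L Tm.var)) (Tm.bas Ix.R Tm.var), ?_⟩
    simp [ev, bs, p, KK_JJ]
  have hpe' : ∀ x g, eqv bs (p x) (p (sh g x)) := by
    intro x g
    refine ⟨?_, hpe x g⟩
    have := hpe (sh g x) g⁻¹
    rwa [sh_inv] at this
  let Pr : Bs → ℕ → Prop := fun x i => iso (ev bs (tm i).1 (p x)) ∈ B ∧
    ev bs (tm i).2 (ev bs (tm i).1 (p x)) = p x
  have hPr : ∀ x, ∃ i, Pr x i := by
    intro x
    obtain ⟨s, t, h1, h2⟩ := hc (p x) (hpc x)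
    obtain ⟨i, hi⟩ := htm (s, t)
    exact ⟨i, by simp only [Pr, hi]; exact ⟨h1, h2⟩⟩
  have hPrm : ∀ i, MeasurableSet {x | Pr x i} := by
    intro i
    have h1 := (measurable_ev measurable_bs (tm i).1).comp hpm
    have h2 := (measurable_ev measurable_bs (tm i).2).comp h1
    exact ((iso.measurable.comp h1) hB).inter (measurableSet_eq_fun h2 hpm)
  let ix : Bs → ℕ := fun x => Nat.find (hPr x)
  have hixm : Measurable ix := measurable_find hPr hPrm
  have hix : ∀ x, Pr x (ix x) := fun x => Nat.find_spec (hPr x)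
  let ρ : Bs → YY := fun x => iso (ev bs (tm (ix x)).1 (p x))
  have hρm : Measurable ρ := by
    have h1 : Measurable fun q : ℕ × Bs => iso (ev bs (tm q.1).1 (p q.2)) :=
      measurable_from_prod_countable_right fun i =>
        iso.measurable.comp ((measurable_ev measurable_bs (tm i).1).comp hpm)
    exact h1.comp (hixm.prodMk measurable_id)
  have hρB : ∀ x, ρ x ∈ B := fun x => (hix x).1
  have hρe : ∀ x, eqv bs (p x) (iso.symm (ρ x)) := by
    intro x
    have h1 : iso.symm (ρ x) = ev bs (tm (ix x)).1 (p x) := by simp [ρ]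
    rw [h1]
    exact ⟨⟨_, (hix x).2⟩, ⟨_, rfl⟩⟩
  have hρinj : ∀ x y, ix x = ix y → ρ x = ρ y → x = y := by
    intro x y h1 h2
    apply hpi
    have h3 : ev bs (tm (ix x)).1 (p x) = ev bs (tm (ix y)).1 (p y) := iso.injective h2
    rw [← (hix x).2, ← (hix y).2, h3, h1]
  have hFmono : ∀ n m x y, n ≤ m → F n x y → F m x y := by
    intro n m x y hnm h
    induction m, hnm using Nat.le_induction with
    | base => exact h
    | succ m _ ih => exact hFi m x y ih
  -- the relations
  let R : ℕ → Bs → Bs → Prop := fun n x y => x = y ∨ (ix x ≤ n ∧ ix y ≤ n ∧ F n (ρ x) (ρ y))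
  refine no_hyperfinite R (fun n => ?_) (fun n => ?_) (fun n x y h => ?_) (fun n x => ?_)
    (fun x g => ?_)
  · refine MeasurableSet.union (measurableSet_eq_fun measurable_fst measurable_snd) ?_
    refine MeasurableSet.inter (measurableSet_le (hixm.comp measurable_fst) measurable_const) ?_
    refine MeasurableSet.inter (measurableSet_le (hixm.comp measurable_snd) measurable_const) ?_
    exact ((hρm.comp measurable_fst).prodMk (hρm.comp measurable_snd)) (hFm n)
  · refine ⟨fun x => Or.inl rfl, ?_, ?_⟩
    · rintro x y (h | ⟨h1, h2, h3⟩)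
      · exact Or.inl h.symm
      · exact Or.inr ⟨h2, h1, (hF n).symm h3⟩
    · rintro x y z (rfl | ⟨h1, h2, h3⟩)
      · exact id
      · rintro (rfl | ⟨h4, h5, h6⟩)
        · exact Or.inr ⟨h1, h2, h3⟩
        · exact Or.inr ⟨h1, h5, (hF n).trans h3 h6⟩
  · rcases h with h | ⟨h1, h2, h3⟩
    · exact Or.inl h
    · exact Or.inr ⟨by omega, by omega, hFi n _ _ h3⟩
  · have hfin : ((Set.Iic n) ×ˢ {y | F n (ρ x) y}).Finite :=
      (Set.finite_Iic n).prod (hFf n (ρ x))
    have hfin2 : {y | ix y ≤ n ∧ F n (ρ x) (ρ y)}.Finite := by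
      refine Set.Finite.of_finite_image (f := fun y => (ix y, ρ y)) (hfin.subset ?_) ?_
      · rintro _ ⟨y, hy, rfl⟩
        exact ⟨hy.1, hy.2⟩
      · intro y _ z _ h
        have h' : (ix y, ρ y) = (ix z, ρ z) := h
        rw [Prod.mk.injEq] at h'
        exact hρinj y z h'.1 h'.2
    refine ((Set.finite_singleton x).union hfin2).subset ?_
    rintro y (h | ⟨_, h2, h3⟩)
    · exact Or.inl h.symm
    · exact Or.inr ⟨h2, h3⟩
  · have h1 : EE (ρ x) (ρ (sh g x)) :=
      eqv_equivalence.trans (eqv_equivalence.symm (hρe x))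
        (eqv_equivalence.trans (hpe' x g) (hρe (sh g x)))
    obtain ⟨n, hn⟩ := (hFE _ (hρB x) _ (hρB _)).1 h1
    refine ⟨max n (max (ix x) (ix (sh g x))), Or.inr ⟨?_, ?_, hFmono n _ _ _ (le_max_left _ _) hn⟩⟩
    · exact (le_max_left _ _).trans (le_max_right _ _)
    · exact (le_max_right _ _).trans (le_max_right _ _)

end Q203.TD
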